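import Pool.Agent.R360.NP.Final

/-!
# Graphs from certificates

The vertices are the points `(u, v, w)` with `u, v` in `ZMod N` and `w : Fin m → ZMod N`.  A term
`(a, s)` is the equivalence relation given by agreement in `u` (`a = 1`), in `v` (`a = 2`), in
`u + v` (`a = 3`), in both `u` and `v` (`a ≥ 4`), no such condition (`a = 0`), together with
agreement in the coordinates of `w` whose bit is set in `s`.  A certificate is a list of positive and
a list of negative terms; if the count of positive minus negative terms is always `0` or `1`, the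
kernel is a graph kernel.
-/

set_option autoImplicit false
set_option linter.unusedSimpArgs false

namespace Pool.Agent.V7H22.NP

open Pool.Agent.R360.NP

/-- does the pattern `p` of the plane part satisfy the condition `a` -/
def acov (a p : ℕ) : Bool := a == 0 || p == 4 || a == p

/-- does the pattern `(p, b)` satisfy the term `t` -/
def covers (t : ℕ × ℕ) (p b : ℕ) : Bool := acov t.1 p && (Nat.land b t.2 == t.2)

/-- number of terms of the list that the pattern satisfies -/
def cnt : List (ℕ × ℕ) → ℕ → ℕ → ℕ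
  | [], _, _ => 0
  | t :: L, p, b => cond (covers t p b) 1 0 + cnt L p b

/-- the pattern of equality -/
def full (m p b : ℕ) : Bool := p == 4 && b == 2 ^ m - 1

/-- the value of a pattern is `0` or `1`, and it is `0` at equality -/
def good (m : ℕ) (pos neg : List (ℕ × ℕ)) (p b : ℕ) : Bool :=
  cond (full m p b) (cnt pos p b + 1 == cnt neg p b)
    (cnt pos p b == cnt neg p b || cnt pos p b == cnt neg p b + 1)

/-- all patterns are good -/
def check (m : ℕ) (pos neg : List (ℕ × ℕ)) : Bool :=
  (List.range 5).all fun p => (List.range (2 ^ m)).all fun b => good m pos neg p b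

/-- the rank of the plane condition -/
def ra (a : ℕ) : ℕ := if a = 0 then 0 else if a ≤ 3 then 1 else 2

/-- number of set bits below `m` -/
def pc (m s : ℕ) : ℕ := (Finset.univ.filter fun i : Fin m => s.testBit i = true).card

variable {N m : ℕ}

/-- the kernel of the plane condition -/
noncomputable def EA (a : ℕ) (x y : ZMod N × ZMod N) : ℝ :=
  if a = 0 then 1 else if a = 1 then dl x.1 y.1 else if a = 2 then dl x.2 y.2 else
    if a = 3 then dl (x.1 + x.2) (y.1 + y.2) else dl x y

/-- the kernel of the coordinate condition -/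
noncomputable def ES (s : ℕ) (x y : Fin m → ZMod N) : ℝ :=
  dl (fun i : {i : Fin m // s.testBit i = true} => x i.1) (fun i => y i.1)

/-- the kernel of a term -/
noncomputable def E (t : ℕ × ℕ) (x y : (ZMod N × ZMod N) × (Fin m → ZMod N)) : ℝ :=
  EA t.1 x.1 y.1 * ES t.2 x.2 y.2

lemma gr_zero {V : Type} : Gr 0 (fun _ _ : V => (0 : ℝ)) :=
  ⟨Empty, inferInstance, fun j => j.elim, by simp, fun x y => by simp⟩

lemma gr_EA [NeZero N] (a : ℕ) : Gr (N ^ ra a) (EA (N := N) a) := by
  unfold ra
  by_cases h0 : a = 0
  · subst h0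
    have : EA (N := N) 0 = fun _ _ => (1 : ℝ) := by funext x y; simp [EA]
    rw [this]; simpa using (Gr.one : Gr 1 (fun _ _ : ZMod N × ZMod N => (1 : ℝ)))
  rw [if_neg h0]
  have hd : Gr N (fun x y : ZMod N => dl x y) := by
    have := (Gr.delta : Gr (Fintype.card (ZMod N)) (fun x y : ZMod N => dl x y))
    rwa [ZMod.card] at this
  by_cases h3 : a ≤ 3
  · rw [if_pos h3, pow_one]
    have : a = 1 ∨ a = 2 ∨ a = 3 := by omega
    rcases this with h | h | h
    · subst h
      have : EA (N := N) 1 = fun x y => dl x.1 y.1 := by funext x y; simp [EA]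
      rw [this]; exact hd.comp Prod.fst
    · subst h
      have : EA (N := N) 2 = fun x y => dl x.2 y.2 := by funext x y; simp [EA]
      rw [this]; exact hd.comp Prod.snd
    · subst h
      have : EA (N := N) 3 = fun x y => dl (x.1 + x.2) (y.1 + y.2) := by funext x y; simp [EA]
      rw [this]; exact hd.comp (fun x : ZMod N × ZMod N => x.1 + x.2)
  · rw [if_neg h3]
    have e : EA (N := N) a = fun x y => dl x y := by
      funext x y
      unfold EA
      rw [if_neg h0, if_neg (by omega), if_neg (by omega), if_neg (by omega)]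
    rw [e]
    have := (Gr.delta : Gr (Fintype.card (ZMod N × ZMod N)) (fun x y : ZMod N × ZMod N => dl x y))
    rw [Fintype.card_prod, ZMod.card] at this
    rwa [sq]

lemma gr_ES [NeZero N] (s : ℕ) : Gr (N ^ pc m s) (ES (N := N) (m := m) s) := by
  have h := (Gr.delta : Gr (Fintype.card ({i : Fin m // s.testBit i = true} → ZMod N))
    (fun x y : {i : Fin m // s.testBit i = true} → ZMod N => dl x y))
  rw [Fintype.card_fun, ZMod.card, Fintype.card_subtype] at h
  exact h.comp (fun x : Fin m → ZMod N => fun i : {i : Fin m // s.testBit i = true} => x i.1)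

lemma gr_E [NeZero N] (t : ℕ × ℕ) : Gr (N ^ (ra t.1 + pc m t.2)) (E (N := N) (m := m) t) := by
  rw [pow_add]
  exact ((gr_EA t.1).comp Prod.fst).mul ((gr_ES t.2).comp Prod.snd)

/-- sum of the kernels of a list -/
noncomputable def SL (L : List (ℕ × ℕ)) (x y : (ZMod N × ZMod N) × (Fin m → ZMod N)) : ℝ :=
  (L.map fun t => E t x y).sum

lemma gr_SL [NeZero N] (r : ℕ) (L : List (ℕ × ℕ)) (h : ∀ t ∈ L, ra t.1 + pc m t.2 ≤ r) :
    Gr (L.length * N ^ r) (SL (N := N) (m := m) L) := by
  induction L with
  | nil =>
    have : SL (N := N) (m := m) [] = fun _ _ => (0 : ℝ) := by funext x y; simp [SL]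
    rw [this]; simpa using gr_zero
  | cons t L ih =>
    have e : SL (N := N) (m := m) (t :: L) = fun x y => E t x y + SL L x y := by
      funext x y; simp [SL]
    rw [e, List.length_cons, show (L.length + 1) * N ^ r = N ^ r + L.length * N ^ r by ring]
    refine Gr.add ?_ (ih fun s hs => h s (List.mem_cons_of_mem _ hs))
    exact (gr_E t).mono (Nat.pow_le_pow_right (NeZero.pos N) (h t List.mem_cons_self))

/-- the pattern of the plane part -/
noncomputable def pp (x y : ZMod N × ZMod N) : ℕ :=
  if x = y then 4 else if x.1 = y.1 then 1 else if x.2 = y.2 then 2 else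
    if x.1 + x.2 = y.1 + y.2 then 3 else 0

/-- the pattern of the coordinates -/
def bb (x y : Fin m → ZMod N) : ℕ := Nat.ofBits fun i : Fin m => decide (x i = y i)

lemma pp_lt (x y : ZMod N × ZMod N) : pp x y < 5 := by
  unfold pp; split_ifs <;> norm_num

lemma bb_lt (x y : Fin m → ZMod N) : bb x y < 2 ^ m := Nat.ofBits_lt_two_pow _

lemma EA_eq (a : ℕ) (x y : ZMod N × ZMod N) : EA a x y = cond (acov a (pp x y)) 1 0 := by
  by_cases hxy : x = y
  · subst hxy
    have hp : pp x x = 4 := by simp [pp]
    rw [hp]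
    have : acov a 4 = true := by simp [acov]
    rw [this]
    unfold EA
    split_ifs <;> simp [dl]
  · have h12 : ¬ (x.1 = y.1 ∧ x.2 = y.2) := fun h => hxy (Prod.ext h.1 h.2)
    unfold EA pp acov
    rw [if_neg hxy]
    by_cases h1 : x.1 = y.1
    · have h2 : x.2 ≠ y.2 := fun h => h12 ⟨h1, h⟩
      have h3 : x.1 + x.2 ≠ y.1 + y.2 := by rw [h1]; exact fun h => h2 (add_left_cancel h)
      rw [if_pos h1]
      by_cases e0 : a = 0
      · simp [e0]
      by_cases e1 : a = 1
      · simp [e1, h1, dl]
      by_cases e2 : a = 2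
      · simp [e2, h2, dl]
      by_cases e3 : a = 3
      · simp [e3, h3, dl]
      simp [e0, e1, e2, e3, dl, hxy, beq_eq_false_iff_ne.2 e0, beq_eq_false_iff_ne.2 e1,
          beq_eq_false_iff_ne.2 e2, beq_eq_false_iff_ne.2 e3]
    · rw [if_neg h1]
      by_cases h2 : x.2 = y.2
      · have h3 : x.1 + x.2 ≠ y.1 + y.2 := by rw [h2]; exact fun h => h1 (add_right_cancel h)
        rw [if_pos h2]
        by_cases e0 : a = 0
        · simp [e0]
        by_cases e1 : a = 1
        · simp [e1, h1, dl]
        by_cases e2 : a = 2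
        · simp [e2, h2, dl]
        by_cases e3 : a = 3
        · simp [e3, h3, dl]
        simp [e0, e1, e2, e3, dl, hxy, beq_eq_false_iff_ne.2 e0, beq_eq_false_iff_ne.2 e1,
          beq_eq_false_iff_ne.2 e2, beq_eq_false_iff_ne.2 e3]
      · rw [if_neg h2]
        by_cases h3 : x.1 + x.2 = y.1 + y.2
        · rw [if_pos h3]
          by_cases e0 : a = 0
          · simp [e0]
          by_cases e1 : a = 1
          · simp [e1, h1, dl]
          by_cases e2 : a = 2
          · simp [e2, h2, dl]
          by_cases e3 : a = 3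
          · simp [e3, h3, dl]
          simp [e0, e1, e2, e3, dl, hxy, beq_eq_false_iff_ne.2 e0, beq_eq_false_iff_ne.2 e1,
          beq_eq_false_iff_ne.2 e2, beq_eq_false_iff_ne.2 e3]
        · rw [if_neg h3]
          by_cases e0 : a = 0
          · simp [e0]
          by_cases e1 : a = 1
          · simp [e1, h1, dl]
          by_cases e2 : a = 2
          · simp [e2, h2, dl]
          by_cases e3 : a = 3
          · simp [e3, h3, dl]
          simp [e0, e1, e2, e3, dl, hxy, beq_eq_false_iff_ne.2 e0, beq_eq_false_iff_ne.2 e1,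
          beq_eq_false_iff_ne.2 e2, beq_eq_false_iff_ne.2 e3]

lemma land_iff (s : ℕ) (hs : s < 2 ^ m) (x y : Fin m → ZMod N) :
    Nat.land (bb x y) s = s ↔ ∀ i : Fin m, s.testBit i = true → x i = y i := by
  constructor
  · intro h i hi
    have h1 : (Nat.land (bb x y) s).testBit i = true := by rw [h]; exact hi
    have h2 : ((bb x y) &&& s).testBit i = true := h1
    rw [Nat.testBit_and, Bool.and_eq_true] at h2
    have h3 := h2.1
    unfold bb at h3
    rw [Nat.testBit_ofBits_lt _ _ i.2] at h3
    simpa using h3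
  · intro h
    show (bb x y) &&& s = s
    apply Nat.eq_of_testBit_eq
    intro i
    rw [Nat.testBit_and]
    by_cases hi : i < m
    · by_cases hb : s.testBit i = true
      · have h1 := h ⟨i, hi⟩ hb
        rw [hb, Bool.and_true]
        unfold bb
        rw [Nat.testBit_ofBits_lt _ _ hi]
        simpa using h1
      · simp only [Bool.not_eq_true] at hb
        rw [hb, Bool.and_false]
    · have : s.testBit i = false := Nat.testBit_lt_two_pow
        (lt_of_lt_of_le hs (Nat.pow_le_pow_right (by norm_num) (by omega)))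
      rw [this, Bool.and_false]

lemma ES_eq (s : ℕ) (hs : s < 2 ^ m) (x y : Fin m → ZMod N) :
    ES s x y = cond (Nat.land (bb x y) s == s) 1 0 := by
  unfold ES
  by_cases h : Nat.land (bb x y) s = s
  · rw [dl_eq, beq_iff_eq.2 h]
    · rfl
    · funext i
      exact (land_iff s hs x y).1 h i.1 i.2
  · rw [dl_ne, beq_eq_false_iff_ne.2 h]
    · rfl
    · intro hc
      apply h
      rw [land_iff s hs x y]
      intro i hi
      exact congrFun hc ⟨i, hi⟩

lemma E_eq (t : ℕ × ℕ) (ht : t.2 < 2 ^ m) (x y : (ZMod N × ZMod N) × (Fin m → ZMod N)) :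
    E t x y = cond (covers t (pp x.1 y.1) (bb x.2 y.2)) 1 0 := by
  unfold E covers
  rw [EA_eq, ES_eq _ ht]
  cases acov t.1 (pp x.1 y.1) <;> cases (Nat.land (bb x.2 y.2) t.2 == t.2) <;> simp

lemma SL_eq (L : List (ℕ × ℕ)) (h : ∀ t ∈ L, t.2 < 2 ^ m)
    (x y : (ZMod N × ZMod N) × (Fin m → ZMod N)) :
    SL L x y = (cnt L (pp x.1 y.1) (bb x.2 y.2) : ℝ) := by
  induction L with
  | nil => simp [SL, cnt]
  | cons t L ih =>
    have e : SL (t :: L) x y = E t x y + SL L x y := by simp [SL]
    rw [e, ih fun s hs => h s (List.mem_cons_of_mem _ hs), E_eq t (h t List.mem_cons_self)]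
    show _ = ((cond (covers t (pp x.1 y.1) (bb x.2 y.2)) 1 0 +
      cnt L (pp x.1 y.1) (bb x.2 y.2) : ℕ) : ℝ)
    cases covers t (pp x.1 y.1) (bb x.2 y.2) <;> simp

lemma bb_full (x y : Fin m → ZMod N) : bb x y = 2 ^ m - 1 ↔ x = y := by
  constructor
  · intro h
    funext i
    have h1 : (bb x y).testBit i = true := by
      rw [h, Nat.testBit_two_pow_sub_one]
      simp
    unfold bb at h1
    rw [Nat.testBit_ofBits_lt _ _ i.2] at h1
    simpa using h1
  · intro h
    subst h
    apply Nat.eq_of_testBit_eq
    intro i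
    rw [Nat.testBit_two_pow_sub_one]
    by_cases hi : i < m
    · unfold bb
      rw [Nat.testBit_ofBits_lt _ _ hi]
      simp [hi]
    · rw [Nat.testBit_lt_two_pow (lt_of_lt_of_le (bb_lt x x)
        (Nat.pow_le_pow_right (by norm_num) (by omega)))]
      simp [hi]

lemma full_iff (x y : (ZMod N × ZMod N) × (Fin m → ZMod N)) :
    full m (pp x.1 y.1) (bb x.2 y.2) = true ↔ x = y := by
  unfold full
  rw [Bool.and_eq_true, beq_iff_eq, beq_iff_eq, bb_full]
  constructor
  · rintro ⟨h1, h2⟩
    refine Prod.ext ?_ h2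
    by_contra h
    unfold pp at h1
    rw [if_neg h] at h1
    split_ifs at h1 <;> simp at h1
  · intro h
    subst h
    exact ⟨by simp [pp], rfl⟩

/-- **certificates give classes** -/
theorem cls_of_cert (m k : ℕ) (pos neg : List (ℕ × ℕ))
    (hpos : ∀ t ∈ pos, t.2 < 2 ^ m) (hneg : ∀ t ∈ neg, t.2 < 2 ^ m)
    (hrank : ∀ t ∈ neg, ra t.1 + pc m t.2 ≤ k) (hcheck : check m pos neg = true) :
    Cls k (m + 2) := by
  refine ⟨pos.length + neg.length, fun N hN => ?_⟩
  haveI : NeZero N := ⟨by omega⟩
  have hgood : ∀ p < 5, ∀ b < 2 ^ m, good m pos neg p b = true := by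
    intro p hp b hb
    unfold check at hcheck
    rw [List.all_eq_true] at hcheck
    have h1 := hcheck p (List.mem_range.2 hp)
    rw [List.all_eq_true] at h1
    exact h1 b (List.mem_range.2 hb)
  refine ⟨(ZMod N × ZMod N) × (Fin m → ZMod N), inferInstance,
    fun x y => SL pos x y + dl x y - SL neg x y, SL pos, SL neg, ?_, ?_, ?_, ?_, ?_, ?_⟩
  · rw [Fintype.card_prod, Fintype.card_prod, Fintype.card_fun, ZMod.card, Fintype.card_fin]
    ring
  · intro x y
    beta_reduce
    rw [SL_eq pos hpos, SL_eq neg hneg]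
    have h := hgood _ (pp_lt x.1 y.1) _ (bb_lt x.2 y.2)
    unfold good at h
    by_cases hxy : x = y
    · rw [(full_iff x y).2 hxy] at h
      simp only [cond_true, beq_iff_eq] at h
      left
      rw [dl_eq hxy, ← h]
      push_cast
      ring
    · have hf : full m (pp x.1 y.1) (bb x.2 y.2) = false := by
        rw [← Bool.not_eq_true, full_iff]; exact hxy
      rw [hf] at h
      simp only [cond_false, Bool.or_eq_true, beq_iff_eq] at h
      rw [dl_ne hxy]
      rcases h with h | h
      · left; rw [h]; ring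
      · right; rw [h]; push_cast; ring
  · intro x
    beta_reduce
    rw [SL_eq pos hpos, SL_eq neg hneg]
    have h := hgood _ (pp_lt x.1 x.1) _ (bb_lt x.2 x.2)
    unfold good at h
    rw [(full_iff x x).2 rfl] at h
    simp only [cond_true, beq_iff_eq] at h
    rw [dl_eq rfl, ← h]
    push_cast
    ring
  · have h1 : ∀ t ∈ pos, ra t.1 + pc m t.2 ≤ m + 2 := by
      intro t _
      have h2 : ra t.1 ≤ 2 := by unfold ra; split_ifs <;> norm_num
      have h3 : pc m t.2 ≤ m := by
        unfold pc
        refine le_trans (Finset.card_le_univ _) ?_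
        rw [Fintype.card_fin]
      omega
    exact (gr_SL (m + 2) pos h1).mono (Nat.mul_le_mul_right _ (by omega))
  · exact (gr_SL k neg hrank).mono (Nat.mul_le_mul_right _ (by omega))
  · intro x y
    rfl

end Pool.Agent.V7H22.NP
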