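import Pool.Agent.V7H22.NP.Cert

/-!
# Growth exponents from classes
-/

set_option autoImplicit false

namespace Pool.Agent.V7H22.NP

open Pool.Agent.R360.NP

/-- a class `(a, K)` gives every growth exponent below `K / a` -/
theorem exponent_of_cls {a K : ℕ} (hcls : Cls a K) (ha1 : 1 ≤ a) (haK : a < K) (e : ℝ)
    (he : e * a < K) (C : ℝ) :
    ∃ (n : ℕ) (G : SimpleGraph (Fin n)), 0 < nneg G ∧ C * (nneg G : ℝ) ^ e < npos G := by
  have ha0 : (0 : ℝ) < a := by exact_mod_cast ha1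
  set t : ℝ := max e 1 with ht
  have ht1 : 1 ≤ t := le_max_right _ _
  have hte : e ≤ t := le_max_left _ _
  have hK : t * a < K := by
    rcases le_total e 1 with h | h
    · rw [ht, max_eq_right h, one_mul]; exact_mod_cast haK
    · rw [ht, max_eq_left h]; exact he
  obtain ⟨D, hD⟩ := graph_of_cls hcls
  set B : ℝ := (1 + |C|) * ((D:ℝ) + 1) ^ t with hB
  have hB0 : 0 < B := by
    have : (0:ℝ) < ((D:ℝ) + 1) ^ t := by positivity
    have := abs_nonneg C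
    positivity
  have hexp : 0 < (K:ℝ) - t * a := by linarith
  obtain ⟨N, hN1, hN⟩ : ∃ N : ℕ, 1 ≤ N ∧ B < (N:ℝ) ^ ((K:ℝ) - t * a) := by
    have h1 := (tendsto_rpow_atTop hexp).comp tendsto_natCast_atTop_atTop (α := ℕ)
    have h2 := (h1.eventually_gt_atTop B).and (Filter.eventually_ge_atTop 1)
    obtain ⟨N, hN⟩ := h2.exists
    exact ⟨N, hN.2, hN.1⟩
  obtain ⟨G, hG1, hG2⟩ := hD N hN1
  have hNpos : (0:ℝ) < N := by exact_mod_cast hN1
  set r : ℝ := ((D:ℝ) + 1) * (N:ℝ) ^ a with hr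
  have hNa : (1:ℝ) ≤ (N:ℝ) ^ a := one_le_pow₀ (by exact_mod_cast hN1)
  have hD0 : (0:ℝ) ≤ D := Nat.cast_nonneg _
  have hr1 : 1 ≤ r := by rw [hr]; nlinarith
  have hx : (nneg G : ℝ) ≤ r := by
    have : (nneg G : ℝ) ≤ D * (N:ℝ) ^ a := by exact_mod_cast hG1
    rw [hr]; nlinarith
  have hrt : r ≤ r ^ t := by
    calc r = r ^ (1:ℝ) := (Real.rpow_one r).symm
      _ ≤ r ^ t := Real.rpow_le_rpow_of_exponent_le hr1 ht1
  have hxe : (nneg G : ℝ) ^ e ≤ r ^ t := by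
    rcases Nat.eq_zero_or_pos (nneg G) with h0 | h0
    · rw [h0, Nat.cast_zero]
      refine le_trans (b := 1) ?_ (Real.one_le_rpow hr1 (by linarith))
      by_cases he0 : e = 0
      · rw [he0, Real.rpow_zero]
      · rw [Real.zero_rpow he0]; norm_num
    · have h1 : (1:ℝ) ≤ nneg G := by exact_mod_cast h0
      calc (nneg G : ℝ) ^ e ≤ (nneg G : ℝ) ^ t := Real.rpow_le_rpow_of_exponent_le h1 hte
        _ ≤ r ^ t := Real.rpow_le_rpow (by linarith) hx (by linarith)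
  have hrtE : r ^ t = ((D:ℝ) + 1) ^ t * (N:ℝ) ^ (t * a) := by
    rw [hr, Real.mul_rpow (by positivity) (by positivity), ← Real.rpow_natCast, ← Real.rpow_mul
      hNpos.le, mul_comm (a:ℝ) t]
  have hmain : (1 + |C|) * r ^ t < (N:ℝ) ^ K := by
    have h1 : (N:ℝ) ^ K = (N:ℝ) ^ ((K:ℝ) - t * a) * (N:ℝ) ^ (t * a) := by
      rw [← Real.rpow_add hNpos, ← Real.rpow_natCast]; congr 1; ring
    rw [h1, hrtE]
    have h2 : (0:ℝ) < (N:ℝ) ^ (t * a) := Real.rpow_pos_of_pos hNpos _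
    calc (1 + |C|) * (((D:ℝ) + 1) ^ t * (N:ℝ) ^ (t * a)) = B * (N:ℝ) ^ (t * a) := by rw [hB]; ring
      _ < _ := by gcongr
  have hpos : (N:ℝ) ^ K ≤ npos G + r := by
    have : (N:ℝ) ^ K ≤ npos G + D * (N:ℝ) ^ a := by exact_mod_cast hG2
    rw [hr]; nlinarith
  have hCx : C * (nneg G : ℝ) ^ e ≤ |C| * r ^ t := by
    have h0 : 0 ≤ (nneg G : ℝ) ^ e := Real.rpow_nonneg (Nat.cast_nonneg _) _
    calc C * (nneg G : ℝ) ^ e ≤ |C| * (nneg G : ℝ) ^ e := by gcongr; exact le_abs_self C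
      _ ≤ |C| * r ^ t := by gcongr
  refine ⟨N ^ K, G, ?_, by nlinarith⟩
  rcases Nat.eq_zero_or_pos (nneg G) with h0 | h0
  · exfalso
    have h1 : npos G = 0 := npos_zero G h0
    rw [h1, Nat.cast_zero] at hpos
    have h2 : 0 ≤ |C| * r ^ t := by
      have : (0:ℝ) ≤ r ^ t := by positivity
      have := abs_nonneg C
      positivity
    nlinarith
  · exact h0

end Pool.Agent.V7H22.NP
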